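import Pool.Agent.Run7.h454.Copy2

set_option autoImplicit false

/-!
# Generating quadrangles in planes of order 2 or 3 modulo 4

Let a finite projective plane of order congruent to `2` or `3` modulo `4` be nondesarguesian, and
let all its proper subplanes be desarguesian of odd order. Then the plane is generated by a
quadrangle.
-/

namespace Pool.Agent.Results.MP_e0a4b3_co.GeneratingQuadrangle

/-- The points `a`, `b`, `c` lie on a common line. -/
def Collinear {P : Type} (L : Type) [Membership P L] (a b c : P) : Prop :=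
  ∃ k : L, a ∈ k ∧ b ∈ k ∧ c ∈ k

/-- Four points, no three collinear. -/
def Quadrangle {P : Type} (L : Type) [Membership P L] (a b c d : P) : Prop :=
  ¬ Collinear L a b c ∧ ¬ Collinear L a b d ∧ ¬ Collinear L a c d ∧ ¬ Collinear L b c d

/-- The set `S` of points is closed: whenever two different lines are each joining two different
points of `S`, their intersection is in `S`. -/
def Closed {P : Type} (L : Type) [Membership P L] (S : Set P) : Prop :=
  ∀ l m : L, l ≠ m →
    (∃ p q : P, p ∈ S ∧ q ∈ S ∧ p ≠ q ∧ p ∈ l ∧ q ∈ l) →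
    (∃ p q : P, p ∈ S ∧ q ∈ S ∧ p ≠ q ∧ p ∈ m ∧ q ∈ m) →
    ∀ x : P, x ∈ l → x ∈ m → x ∈ S

/-- The point set `S` is the set of the points of a subplane which is isomorphic to `PG(2, K)`
for a finite field `K` of odd characteristic. -/
def IsOddClassical {P : Type} (L : Type) [Membership P L] (S : Set P) : Prop :=
  ∃ (K : Type) (_ : Field K) (_ : Finite K) (f : Projectivization K (Fin 3 → K) → P)
    (g : {W : Submodule K (Fin 3 → K) // Module.finrank K W = 2} → L),
    (2 : K) ≠ 0 ∧ Function.Injective f ∧ Function.Injective g ∧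
    (∀ x W, f x ∈ g W ↔ x.submodule ≤ W.1) ∧ Set.range f = S

/-- The plane is `PG(2, F)` for some field `F`. -/
def Desarguesian (P L : Type) [Membership P L] : Prop :=
  ∃ (F : Type) (_ : Field F) (f : P ≃ Projectivization F (Fin 3 → F))
    (g : L ≃ {W : Submodule F (Fin 3 → F) // Module.finrank F W = 2}),
    ∀ (p : P) (l : L), p ∈ l ↔ (f p).submodule ≤ (g l).1

/-- Let a finite projective plane of order congruent to 2 or 3 modulo 4 be nondesarguesian, and let
every proper closed set of points that contains a quadrangle be the point set of a desarguesian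
subplane of odd order. Then there is a quadrangle which generates the plane. -/
theorem result (P L : Type) [Membership P L] [Configuration.ProjectivePlane P L] [Finite P]
    [Finite L] (hn : Configuration.ProjectivePlane.order P L % 4 = 2 ∨
      Configuration.ProjectivePlane.order P L % 4 = 3) (hD : ¬ Desarguesian P L)
    (h : ∀ S : Set P, Closed L S → S ≠ Set.univ →
      (∃ a ∈ S, ∃ b ∈ S, ∃ c ∈ S, ∃ d ∈ S, Quadrangle L a b c d) → IsOddClassical L S) :
    ∃ a b c d : P, Quadrangle L a b c d ∧
      ∀ S : Set P, a ∈ S → b ∈ S → c ∈ S → d ∈ S → Closed L S → ∀ x : P, x ∈ S := by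
  by_contra hcon
  push Not at hcon
  apply hD
  have hE : Pool.Agent.Run7.H454.EvenTranslations P L := by
    apply Pool.Agent.Run7.H454.even_of_copies
    intro a b c d h1 h2 h3 h4
    have hq : Quadrangle L a b c d := ⟨h1, h2, h3, h4⟩
    obtain ⟨S, ha, hb, hc, hd, hS, x, hx⟩ := hcon a b c d hq
    obtain ⟨K, iK, fK, f, g, h20, hf, -, hfg, hr⟩ := h S hS
      (by rintro rfl; exact hx (Set.mem_univ x)) ⟨a, ha, b, hb, c, hc, d, hd, hq⟩
    have hp : (ringChar K).Prime := CharP.char_is_prime K (ringChar K)
    refine ⟨K, iK, ringChar K, CharP.cast_eq_zero K _, hp.odd_of_ne_two ?_, f, g, hf, hfg,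
      hr ▸ ha, hr ▸ hb, hr ▸ hc, hr ▸ hd⟩
    intro h2
    apply h20
    have := CharP.cast_eq_zero K (ringChar K)
    rw [h2] at this
    exact_mod_cast this
  have hB : Pool.Agent.Run7.H454.BR P L := Pool.Agent.Run7.H454.BR_of_even hE
  rcases hn with hn | hn
  · exact absurd hn (Pool.Agent.Run7.H454.not_two hB)
  · obtain ⟨F, fld, f, g, hfg⟩ := Pool.Agent.Run7.H454.iso_of_HH ⟨hB, hn⟩
    exact ⟨F, fld, f, g, hfg⟩

end Pool.Agent.Results.MP_e0a4b3_co.GeneratingQuadrangle
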